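import Pool.Agent.TH221.Rough.Tubes
import Pool.Agent.TH221.Rough.Classes
import Pool.Agent.H810R3.Tub.Lip

set_option autoImplicit false
set_option maxHeartbeats 1000000

/-! Boxes with axes in a rough family of lines of bounded overlap. -/

open MeasureTheory Set Filter Topology ENNReal NNReal Metric

namespace Pool.Agent.Q184.KR

open Pool.Agent.H803R2.Kak
open Pool.Agent.H810R3.Tub (Vec Space tube dir om om_pos box nor Fb Fe scl scl_box ae_smul lint_smul
  Fb_measurable compare arith1 arith2 wv wv_pos)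
open Pool.Agent.H805R3.Kk (LipPieces OverlapLE SectionMonotone)
open Pool.Agent.TH221.Rough (HasGood Good Fw Cst Cst_pos exp_facts)

variable {d : ℕ}

/-- a multiple of a rough family is a rough family -/
theorem hasGood_smul {M : ℕ} {B : Set (Vec d)} {g : Vec d → Vec d} (h : HasGood M univ B g) {l : ℝ}
    (hl : l ≠ 0) : HasGood M univ B (fun v => l • g v) := by
  obtain ⟨P, b₀, b', hG, h1, h2⟩ := h
  have hl' : l⁻¹ ≠ 0 := inv_ne_zero hl
  refine ⟨P, fun v => l • b₀ v, fun v => l • b' v, ⟨hG.meas, hG.disj, ?_, ?_, ?_, ?_, ?_⟩, h1, h2⟩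
  · intro k v hv
    exact (hG.deriv k v hv).const_smul l
  · exact hG.mb'.const_smul l
  · exact hG.mb₀.const_smul l
  · intro v hv
    show l • b₀ v = l • g v
    rw [hG.eqb v hv]
  · have h3 := ae_smul (volume : Measure ℝ) hl' hG.mult
    filter_upwards [h3] with t ht _
    have h4 := ae_smul (volume : Measure (Vec d)) hl' (ht (mem_univ _))
    filter_upwards [h4] with y hy
    refine le_trans (Set.encard_le_encard ?_) hy
    rintro v ⟨g1, g2, g3⟩
    refine ⟨g1, ?_, ?_⟩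
    · rw [← g2, smul_add, smul_smul, inv_mul_cancel₀ hl, one_smul, smul_smul, smul_eq_mul]
    · have e : l • b' v + t • ContinuousLinearMap.id ℝ (Vec d) =
          l • (b' v + (l⁻¹ • t) • ContinuousLinearMap.id ℝ (Vec d)) := by
        rw [smul_add, smul_smul, smul_eq_mul, ← mul_assoc, mul_inv_cancel₀ hl, one_mul]
      rw [e] at g3
      intro h0
      apply g3
      rw [ContinuousLinearMap.det, ContinuousLinearMap.toLinearMap_smul, LinearMap.det_smul]
      rw [ContinuousLinearMap.det] at h0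
      rw [h0, mul_zero]

theorem Fe_eq {ι : Type} [Fintype ι] (δ : ℝ) (v β : ι → Vec d) (s : ι → ℝ) (x : Vec d) (t : ℝ) :
    Fe δ v β s x t = Fw δ v β s (fun _ => 1) x t := by
  unfold Fe Fw
  simp

/-- The condition on the axes of the boxes: for a proportion `≥ θ` of the `w` at distance less than
`σ / (4 N)` from `ω i`, `w ∈ B` and `β i` is at distance at most `K N` from `N² b w`. -/
def Close {ι : Type} (σ N K θ : ℝ) (B : Set (Vec d)) (b : Vec d → Vec d) (ω β : ι → Vec d) : Prop :=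
  ∀ i, ENNReal.ofReal θ * volume (ball (ω i) (σ / (4 * N))) ≤
    volume {w | w ∈ B ∧ ‖w - ω i‖ < σ / (4 * N) ∧ ‖β i - N ^ 2 • b w‖ ≤ K * N}

theorem Close.theta_le {ι : Type} [Nonempty ι] {σ N K θ : ℝ} {B : Set (Vec d)} {b : Vec d → Vec d}
    {ω β : ι → Vec d} (h : Close σ N K θ B b ω β) (hσ : 0 < σ) (hN : 0 < N) (hθ : 0 < θ) :
    θ ≤ 1 := by
  obtain ⟨i⟩ := ‹Nonempty ι›
  have h1 := h i
  have h2 : volume {w | w ∈ B ∧ ‖w - ω i‖ < σ / (4 * N) ∧ ‖β i - N ^ 2 • b w‖ ≤ K * N} ≤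
      1 * volume (ball (ω i) (σ / (4 * N))) := by
    rw [one_mul]
    refine measure_mono ?_
    intro w hw
    rw [mem_ball, dist_eq_norm]
    exact hw.2.1
  have h3 := h1.trans h2
  have h4 : volume (ball (ω i) (σ / (4 * N))) ≠ 0 := (measure_ball_pos _ _ (by positivity)).ne'
  have h5 : volume (ball (ω i) (σ / (4 * N))) ≠ ∞ := measure_ball_lt_top.ne
  have h6 := (ENNReal.mul_le_mul_iff_left h4 h5).1 h3
  rw [← ENNReal.ofReal_one] at h6
  exact (ENNReal.ofReal_le_ofReal_iff zero_le_one).1 h6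

/-- The integral bound at unit scale. -/
theorem int_rough (d : ℕ) (hd : 1 ≤ d) (q : ℝ) (hq : ((d : ℝ) + 1) / d < q) :
    ∃ E : ℝ, 0 < E ∧ ∀ (K S : ℝ≥0) (M : ℕ) (B : Set (Vec d)) (b : Vec d → Vec d),
      HasGood M univ B b → ∀ θ δ : ℝ, 0 < θ → 0 < δ → δ < 1 →
      ∀ (ι : Type) [Fintype ι] (v β : ι → Vec d) (s : ι → ℝ),
        (∀ i, ‖v i‖ ≤ 1) → (∀ i, |s i| ≤ S) →
        (∀ i, ENNReal.ofReal θ * volume (ball (v i) (δ / 2)) ≤
          volume {w | w ∈ B ∧ ‖w - v i‖ < δ / 2 ∧ ‖β i - b w‖ ≤ K * δ}) →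
        (∀ i j, i ≠ j → δ ≤ ‖v i - v j‖) →
        ∫⁻ t : ℝ, ∫⁻ x : Vec d, Fe δ v β s x t ^ q
          ≤ ENNReal.ofReal (E * ((1 + M) ^ (q - 1) * (1 + K + S) ^ (d + 1) *
              θ ^ (-(1 / (d : ℝ)))) * δ ^ d * (Fintype.card ι : ℝ) ^ (q - 1 / d)) := by
  obtain ⟨hd0, hq1, hqd, hr, hs0, hq2⟩ := exp_facts hd hq
  have hCst := Cst_pos hd hq
  have hom := om_pos (d := d)
  refine ⟨Cst d q * 4 ^ (d + 1) * (2 * (om d) ^ (-(1 / (d : ℝ)))), by positivity, ?_⟩
  intro K S M B b hG θ δ hθ hδ hδ1 ι _ v β s hv hs hE hsep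
  have hK0 : (0 : ℝ) ≤ K := K.2
  have hS0 : (0 : ℝ) ≤ S := S.2
  have hM0 : (0 : ℝ) ≤ M := Nat.cast_nonneg _
  have h1 := hG.tubes_int hd hq MeasurableSet.univ hθ hδ hδ1 v β s (fun _ => 1) hv hs hsep hE
  rw [Measure.restrict_univ] at h1
  simp only [Fe_eq]
  refine h1.trans (ENNReal.ofReal_le_ofReal ?_)
  have e1 : (∑ i : ι, |(1 : ℝ)| ^ (q * d / (q * d - 1))) = (Fintype.card ι : ℝ) := by
    simp
  have e2 : ((δ / 2) ^ d * om d) ^ (-(1 / (d : ℝ))) = 2 * δ⁻¹ * (om d) ^ (-(1 / (d : ℝ))) := by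
    rw [Real.mul_rpow (by positivity) hom.le, Real.rpow_neg (by positivity), one_div,
      Real.pow_rpow_inv_natCast (by positivity) (by omega)]
    congr 1
    rw [inv_div]
    field_simp
  rw [e1, e2]
  have e3 : ((4 + K + S : ℝ) * δ) ^ (d + 1) ≤ (4 : ℝ) ^ (d + 1) * (1 + K + S) ^ (d + 1) * (δ ^ d * δ) := by
    rw [← pow_succ, ← mul_pow, ← mul_pow]
    apply pow_le_pow_left₀ (by positivity)
    nlinarith
  calc Cst d q * (1 + M) ^ (q - 1) * ((4 + K + S) * δ) ^ (d + 1) *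
        (2 * δ⁻¹ * (om d) ^ (-(1 / (d : ℝ))) * θ ^ (-(1 / (d : ℝ))) *
          (Fintype.card ι : ℝ) ^ (q - 1 / d))
      ≤ Cst d q * (1 + M) ^ (q - 1) * ((4 : ℝ) ^ (d + 1) * (1 + K + S) ^ (d + 1) * (δ ^ d * δ)) *
        (2 * δ⁻¹ * (om d) ^ (-(1 / (d : ℝ))) * θ ^ (-(1 / (d : ℝ))) *
          (Fintype.card ι : ℝ) ^ (q - 1 / d)) := by gcongr
    _ = (Cst d q * 4 ^ (d + 1) * (2 * (om d) ^ (-(1 / (d : ℝ))))) *
        ((1 + M) ^ (q - 1) * (1 + K + S) ^ (d + 1) * θ ^ (-(1 / (d : ℝ)))) *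
        (δ ^ d * (δ * δ⁻¹)) * (Fintype.card ι : ℝ) ^ (q - 1 / d) := by ring
    _ = _ := by rw [mul_inv_cancel₀ hδ.ne', mul_one]

/-- The `q`-th moment of a sum of boxes with axes in a rough family. -/
theorem push_rough (d : ℕ) (hd : 1 ≤ d) (q : ℝ) (hq : ((d : ℝ) + 1) / d < q) (σ : ℝ) (hσ : 0 < σ)
    (hσ1 : σ ≤ 1) :
    ∃ E : ℝ, 0 < E ∧ ∀ (K S : ℝ≥0) (M : ℕ) (B : Set (Vec d)) (b : Vec d → Vec d),
      HasGood M univ B b → ∀ θ : ℝ, 0 < θ →
      ∀ N : ℝ, 1 ≤ N → ∀ (ι : Type) [Fintype ι] (ω β : ι → Vec d) (s : ι → ℝ)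
        (f : ι → Fin d → Space d),
        (∀ i, ‖ω i‖ ≤ 1) → (∀ i j, i ≠ j → σ / N ≤ ‖ω i - ω j‖) →
        (∀ i, Orthonormal ℝ (Fin.cons (nor (ω i)) (f i) : Fin (d + 1) → Space d)) →
        (∀ i, |s i| ≤ S * N ^ 2) → Close σ N K θ B b ω β →
        ∫⁻ y, Fb N ω f (fun i => WithLp.toLp 2 (β i + s i • (-(2 : ℝ) • ω i), s i)) y ^ q
          ≤ ENNReal.ofReal (E * ((1 + M) ^ (q - 1) * (1 + K + S) ^ (d + 1) *
              θ ^ (-(1 / (d : ℝ)))) * N ^ (d + 2) * (Fintype.card ι : ℝ) ^ (q - 1 / d)) := by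
  obtain ⟨E, hE0, hE⟩ := int_rough d hd q hq
  have hd0 : (0 : ℝ) < d := by exact_mod_cast hd
  have hq0 : 0 < q := lt_trans (by positivity) hq
  refine ⟨2 ^ d * ((1 + d) / σ) ^ (d + 1) * E * (σ / 2) ^ d, by positivity, ?_⟩
  intro K S M B b hG θ hθ N hN ι _ ω β s f hω hsep hf hs hβ
  have hK0 : (0 : ℝ) ≤ K := K.2
  have hS0 : (0 : ℝ) ≤ S := S.2
  have hM0 : (0 : ℝ) ≤ M := Nat.cast_nonneg _
  have hN0 : 0 < N := by linarith
  set c : ℝ := σ / ((1 + d) * N ^ 2) with hc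
  have hc0 : 0 < c := by positivity
  set δ : ℝ := σ / (2 * N) with hδ
  have hδ0 : 0 < δ := by positivity
  have hδ1 : δ < 1 := by
    rw [hδ, div_lt_one (by positivity)]
    linarith
  have hδ2 : δ / 2 = σ / (4 * N) := by
    rw [hδ]
    field_simp
    norm_num
  have hcN : c * N ^ 2 = σ / (1 + d) := by
    rw [hc]; field_simp
  have hc1 : c * (N ^ 2 / 2 + d * N / 2) ≤ 1 / 2 := by
    have h1 : N ^ 2 / 2 + d * N / 2 ≤ (1 + d) * N ^ 2 / 2 := by
      nlinarith [mul_nonneg hd0.le (sub_nonneg.2 hN)]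
    calc c * (N ^ 2 / 2 + d * N / 2) ≤ c * ((1 + d) * N ^ 2 / 2) := mul_le_mul_of_nonneg_left h1 hc0.le
      _ = (c * N ^ 2) * (1 + d) / 2 := by ring
      _ = σ / 2 := by rw [hcN]; field_simp
      _ ≤ 1 / 2 := by linarith
  have hc2 : c * (d * N / 2) ≤ δ := by
    have h1 : c * (d * N / 2) = (σ / (2 * N)) * (d / (1 + d)) := by
      rw [hc]; field_simp
    rw [h1, hδ]
    have h2 : (d : ℝ) / (1 + d) ≤ 1 := by
      rw [div_le_one (by positivity)]; linarith
    calc σ / (2 * N) * (d / (1 + d)) ≤ σ / (2 * N) * 1 := mul_le_mul_of_nonneg_left h2 (by positivity)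
      _ = _ := mul_one _
  set l : ℝ := -(c / 2) * N ^ 2 with hl
  have hl0 : l ≠ 0 := by
    have : 0 < c / 2 * N ^ 2 := by positivity
    have e : l = -(c / 2 * N ^ 2) := by rw [hl]; ring
    rw [e]
    linarith
  have hcS : c * N ^ 2 ≤ 1 := by
    rw [hcN, div_le_one (by positivity)]
    linarith
  have key := hE K S M B _ (hasGood_smul hG hl0) θ δ hθ hδ0 hδ1 ι ω (fun i => -(c / 2) • β i)
    (fun i => c * s i) hω
    (fun i => by
      rw [abs_mul, abs_of_pos hc0]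
      calc c * |s i| ≤ c * (S * N ^ 2) := mul_le_mul_of_nonneg_left (hs i) hc0.le
        _ = S * (c * N ^ 2) := by ring
        _ ≤ S * 1 := mul_le_mul_of_nonneg_left hcS hS0
        _ = S := mul_one _)
    (fun i => by
      rw [hδ2]
      refine (hβ i).trans (measure_mono ?_)
      rintro w ⟨hw1, hw2, hw3⟩
      refine ⟨hw1, hw2, ?_⟩
      have e : -(c / 2) • β i - l • b w = -(c / 2) • (β i - N ^ 2 • b w) := by
        rw [smul_sub, smul_smul]
      rw [e, norm_smul, norm_neg, Real.norm_of_nonneg (by positivity)]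
      calc c / 2 * ‖β i - N ^ 2 • b w‖ ≤ c / 2 * (K * N) :=
            mul_le_mul_of_nonneg_left hw3 (by positivity)
        _ = K * ((c * N ^ 2) / (2 * N)) := by field_simp
        _ ≤ K * δ := by
            apply mul_le_mul_of_nonneg_left _ hK0
            rw [hδ, hcN]
            apply div_le_div_of_nonneg_right _ (by positivity)
            rw [div_le_iff₀ (by positivity)]
            nlinarith)
    (fun i j hij => by
      refine le_trans ?_ (hsep i j hij)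
      rw [hδ]
      apply div_le_div_of_nonneg_left hσ.le hN0
      linarith)
  set a : ι → Space d := fun i => WithLp.toLp 2 (β i + s i • (-(2 : ℝ) • ω i), s i) with ha
  have hpt : ∀ (x : Vec d) (t : ℝ), Fb N ω f a (WithLp.toLp 2 (x, t)) ≤
      Fe δ ω (fun i => -(c / 2) • β i) (fun i => c * s i) (-(c / 2) • x) (c * t) := by
    intro x t
    unfold Fb Fe
    refine Finset.sum_le_sum fun i _ => ?_
    by_cases hm : (WithLp.toLp 2 (x, t) : Space d) ∈ box N (nor (ω i)) (f i) (a i)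
    · have h1 := scl_box hN hc0 hc1 hc2 (hf i) hm
      have e1 : scl c (WithLp.toLp 2 (x, t) : Space d) = WithLp.toLp 2 (-(c / 2) • x, c * t) := rfl
      have e2 : scl c (a i) = WithLp.toLp 2 (-(c / 2) • β i + (c * s i) • ω i, c * s i) := by
        show (WithLp.toLp 2 (-(c / 2) • (β i + s i • (-(2 : ℝ) • ω i)), c * s i) : Space d) = _
        congr 1
        refine Prod.ext ?_ rfl
        show -(c / 2) • (β i + s i • (-(2 : ℝ) • ω i)) = -(c / 2) • β i + (c * s i) • ω i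
        rw [smul_add, smul_smul, smul_smul]
        congr 2
        ring
      rw [e1, e2] at h1
      rw [indicator_of_mem hm, indicator_of_mem h1]
    · rw [indicator_of_notMem hm]
      exact zero_le
  have hmp := WithLp.volume_preserving_toLp (Vec d) ℝ
  have hg : Measurable (fun y : Space d => Fb N ω f a y ^ q) := (Fb_measurable N ω f a).pow_const _
  have hS : ∫⁻ y : Space d, Fb N ω f a y ^ q = ∫⁻ t : ℝ, ∫⁻ x : Vec d, Fb N ω f a (WithLp.toLp 2 (x, t)) ^ q := by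
    rw [← hmp.lintegral_comp hg]
    have hg2 : Measurable (fun p : Vec d × ℝ => Fb N ω f a (WithLp.toLp 2 p) ^ q) := hg.comp hmp.measurable
    rw [Measure.volume_eq_prod, lintegral_prod_symm _ hg2.aemeasurable]
  rw [hS]
  have hc2' : -(c / 2) ≠ 0 := by
    have : 0 < c / 2 := by positivity
    linarith
  set Z : ℝ := (1 + M) ^ (q - 1) * (1 + K + S) ^ (d + 1) * θ ^ (-(1 / (d : ℝ))) with hZ
  calc ∫⁻ t : ℝ, ∫⁻ x : Vec d, Fb N ω f a (WithLp.toLp 2 (x, t)) ^ q
      ≤ ∫⁻ t : ℝ, ∫⁻ x : Vec d, Fe δ ω (fun i => -(c / 2) • β i) (fun i => c * s i) (-(c / 2) • x) (c * t) ^ q :=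
        lintegral_mono fun t => lintegral_mono fun x => ENNReal.rpow_le_rpow (hpt x t) hq0.le
    _ = ∫⁻ t : ℝ, ENNReal.ofReal |((-(c / 2)) ^ d)⁻¹| *
          ∫⁻ x : Vec d, Fe δ ω (fun i => -(c / 2) • β i) (fun i => c * s i) x (c • t) ^ q := by
        refine lintegral_congr fun t => ?_
        rw [lint_smul volume hc2'
          (fun x => Fe δ ω (fun i => -(c / 2) • β i) (fun i => c * s i) x (c * t) ^ q),
          finrank_euclideanSpace_fin, smul_eq_mul]
    _ = ENNReal.ofReal |((-(c / 2)) ^ d)⁻¹| * (ENNReal.ofReal |(c ^ 1)⁻¹| *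
          ∫⁻ t : ℝ, ∫⁻ x : Vec d, Fe δ ω (fun i => -(c / 2) • β i) (fun i => c * s i) x t ^ q) := by
        rw [lintegral_const_mul' _ _ ENNReal.ofReal_ne_top, lint_smul volume hc0.ne'
          (fun t : ℝ => ∫⁻ x : Vec d, Fe δ ω (fun i => -(c / 2) • β i) (fun i => c * s i) x t ^ q),
          Module.finrank_self]
    _ ≤ ENNReal.ofReal |((-(c / 2)) ^ d)⁻¹| * (ENNReal.ofReal |(c ^ 1)⁻¹| *
          ENNReal.ofReal (E * Z * δ ^ d * (Fintype.card ι : ℝ) ^ (q - 1 / d))) := by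
        gcongr
    _ = ENNReal.ofReal (2 ^ d * ((1 + d) / σ) ^ (d + 1) * E * (σ / 2) ^ d * Z *
          N ^ (d + 2) * (Fintype.card ι : ℝ) ^ (q - 1 / d)) := by
        rw [← ENNReal.ofReal_mul (abs_nonneg _), ← ENNReal.ofReal_mul (abs_nonneg _)]
        congr 1
        have e1 : |((-(c / 2)) ^ d)⁻¹| = 2 ^ d * ((1 + d) / σ) ^ d * N ^ (2 * d) := by
          rw [abs_inv, abs_pow, abs_neg, abs_of_pos (by positivity : 0 < c / 2), hc, ← inv_pow]
          have : (σ / ((1 + d) * N ^ 2) / 2)⁻¹ = 2 * ((1 + d) / σ) * N ^ 2 := by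
            field_simp
          rw [this, mul_pow, mul_pow, ← pow_mul]
        have e2 : |(c ^ 1)⁻¹| = ((1 + d) / σ) * N ^ 2 := by
          rw [pow_one, abs_inv, abs_of_pos hc0, hc]
          field_simp
        have e3 : δ ^ d * N ^ d = (σ / 2) ^ d := by
          rw [← mul_pow, hδ]
          congr 1
          field_simp
        rw [e1, e2]
        calc 2 ^ d * ((1 + (d : ℝ)) / σ) ^ d * N ^ (2 * d) * (((1 + d) / σ) * N ^ 2 *
              (E * Z * δ ^ d * (Fintype.card ι : ℝ) ^ (q - 1 / d)))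
            = 2 ^ d * ((1 + (d : ℝ)) / σ) ^ (d + 1) * E * (δ ^ d * N ^ d) * Z *
              N ^ (d + 2) * (Fintype.card ι : ℝ) ^ (q - 1 / d) := by
              rw [pow_succ ((1 + (d : ℝ)) / σ) d, show 2 * d = d + d by ring, pow_add N d d, pow_add N d 2]
              ring
          _ = _ := by rw [e3]

end Pool.Agent.Q184.KR
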